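import Pool.Agent.T9h49.SD.Perm3

/-!
# Index of a permutation group and its three-cycles (Bochert's argument)
-/

set_option autoImplicit false
set_option linter.unusedSectionVars false
set_option linter.unusedVariables false

namespace Pool.Agent.T9h49.SD

open Equiv Equiv.Perm Finset
open scoped Nat

variable {P : Type*} [Fintype P] [DecidableEq P] (H : Subgroup (Perm P))

/-- Bochert's argument: a set which meets each class at most once gives a lower bound for the
index. -/
theorem bochert (S : Finset P) (hS : ∀ i ∈ S, ∀ j ∈ S, Rel H i j → i = j) :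
    (S.card / 2)! ≤ H.index := by
  classical
  let good : Finset P → Prop := fun Γ => ∀ h ∈ H, (∀ x, x ∉ Γ → h x = x) → h = 1
  obtain ⟨Γ, hΓ, hmax⟩ := Finset.exists_max_image (S.powerset.filter good) Finset.card
    ⟨∅, by
      rw [mem_filter]
      refine ⟨by simp, fun h _ hx => ?_⟩
      ext x
      exact hx x (by simp)⟩
  rw [mem_filter, mem_powerset] at hΓ
  obtain ⟨hΓS, hΓg⟩ := hΓ
  have h1 : S.card ≤ 2 * Γ.card := by
    by_contra hlt
    push Not at hlt
    have hcard : (S \ Γ).card + Γ.card = S.card := Finset.card_sdiff_add_card_eq_card hΓS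
    have hΔ : ¬ good (S \ Γ) := fun hg => by
      have := hmax (S \ Γ) (by
        rw [mem_filter, mem_powerset]
        exact ⟨sdiff_subset, hg⟩)
      omega
    simp only [good] at hΔ
    push Not at hΔ
    obtain ⟨g, hgH, hgs, hg1⟩ := hΔ
    obtain ⟨δ, hδ⟩ : ∃ δ, g δ ≠ δ := by
      by_contra hcon
      push Not at hcon
      exact hg1 (Equiv.ext hcon)
    have hδΔ : δ ∈ S \ Γ := by
      by_contra h
      exact hδ (hgs δ h)
    have hδΔ' := mem_sdiff.1 hδΔ
    have hins : ¬ good (insert δ Γ) := fun hg => by
      have := hmax (insert δ Γ) (by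
        rw [mem_filter, mem_powerset]
        exact ⟨insert_subset hδΔ'.1 hΓS, hg⟩)
      rw [card_insert_of_notMem hδΔ'.2] at this
      omega
    simp only [good] at hins
    push Not at hins
    obtain ⟨h, hhH, hhs, hh1⟩ := hins
    have hhδ : h δ ≠ δ := fun hfix => hh1 (hΓg h hhH fun x hx => by
      by_cases hxδ : x = δ
      · rw [hxδ, hfix]
      · exact hhs x (by simp [hxδ, hx]))
    have hmeet : ∀ x, g x ≠ x → h x ≠ x → x = δ := fun x hgx hhx => by
      by_contra hxδ
      have h2 : x ∈ S \ Γ := by
        by_contra h'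
        exact hgx (hgs x h')
      have h3 : x ∈ insert δ Γ := by
        by_contra h'
        exact hhx (hhs x h')
      rw [mem_insert] at h3
      rcases h3 with h3 | h3
      · exact hxδ h3
      · exact (mem_sdiff.1 h2).2 h3
    have hcomm := comm_cyc hδ hhδ hmeet
    have hmem : cyc δ (g δ) (h δ) ∈ H := by
      rw [← hcomm]
      exact H.mul_mem (conj_mem hhH hgH) (H.inv_mem hhH)
    have hgg : g (g δ) ≠ g δ := fun h => hδ (g.injective h)
    have hgS : g δ ∈ S := by
      have : g δ ∈ S \ Γ := by
        by_contra h'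
        exact hgg (hgs _ h')
      exact (mem_sdiff.1 this).1
    have hne : g δ ≠ h δ := fun h' => by
      have h4 : h (h δ) ≠ h δ := fun h5 => hhδ (h.injective h5)
      have h5 := hmeet (g δ) hgg (by rw [h']; exact h4)
      exact hδ h5
    have hrel : Rel H δ (g δ) := Or.inr ⟨h δ, hδ.symm, hhδ.symm, hne, hmem⟩
    exact hδ (hS δ hδΔ'.1 (g δ) hgS hrel).symm
  -- injection
  have h2 : Γ.card ! ≤ H.index := by
    have h3 : Nat.card (Perm {x // x ∈ Γ}) = Γ.card ! := by
      rw [Nat.card_eq_fintype_card, Fintype.card_perm, Fintype.card_coe]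
    rw [← h3, Subgroup.index]
    refine Nat.card_le_card_of_injective
      (fun σ : Perm {x // x ∈ Γ} => (QuotientGroup.mk (ofSubtype σ) : Perm P ⧸ H))
      fun σ τ hστ => ?_
    have h4 : (ofSubtype σ)⁻¹ * ofSubtype τ ∈ H := QuotientGroup.eq.1 hστ
    have h5 : (ofSubtype σ)⁻¹ * ofSubtype τ = 1 := by
      refine hΓg _ h4 fun x hx => ?_
      rw [← map_inv, ← map_mul]
      exact ofSubtype_apply_of_not_mem _ hx
    have h6 : ofSubtype σ = ofSubtype τ := by
      rw [inv_mul_eq_one] at h5
      exact h5
    exact ofSubtype_injective h6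
  exact (Nat.factorial_le (by omega)).trans h2

noncomputable instance : Fintype (Quotient (stoid H)) :=
  @Quotient.fintype P _ (stoid H) (Classical.decRel _)

noncomputable instance : DecidableEq (Quotient (stoid H)) := Classical.decEq _

/-- class of a point -/
def cls (i : P) : Quotient (stoid H) := Quotient.mk (stoid H) i

theorem cls_eq {i j : P} : cls H i = cls H j ↔ Rel H i j := by
  unfold cls
  constructor
  · intro h
    exact Quotient.exact h
  · intro h
    exact Quotient.sound h

/-- number of classes -/
theorem index_ge : (Fintype.card (Quotient (stoid H)) / 2)! ≤ H.index := by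
  classical
  have h1 := bochert H (univ.image fun c : Quotient (stoid H) => Quotient.out c) (by
    intro i hi j hj hij
    rw [mem_image] at hi hj
    obtain ⟨c, -, rfl⟩ := hi
    obtain ⟨d, -, rfl⟩ := hj
    rw [← cls_eq] at hij
    unfold cls at hij
    rw [Quotient.out_eq, Quotient.out_eq] at hij
    rw [hij])
  rwa [card_image_of_injective _ Quotient.out_injective, card_univ] at h1

/-- an element of `H` permutes the classes -/
theorem card_le : Nat.card H ≤
    Fintype.card P ^ Fintype.card (Quotient (stoid H)) *
      ∏ c : Quotient (stoid H), (Fintype.card {i // cls H i = c})! := by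
  classical
  rw [← DomMulAct.stabilizer_card (cls H)]
  let A : Finset (Perm P) := univ.filter fun σ => σ ∈ H
  have hA : Nat.card H = A.card := by
    rw [Nat.card_eq_fintype_card, Fintype.card_subtype]
  have hB : Fintype.card {g : Perm P // cls H ∘ g = cls H} =
      (univ.filter fun g : Perm P => cls H ∘ g = cls H).card := Fintype.card_subtype _
  rw [hA, hB]
  have hC : (univ : Finset (Quotient (stoid H) → P)).card =
      Fintype.card P ^ Fintype.card (Quotient (stoid H)) := by
    rw [card_univ, Fintype.card_fun]
  rw [← hC, mul_comm]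
  refine card_le_mul_card_image_of_maps_to
    (f := fun (σ : Perm P) (c : Quotient (stoid H)) => σ c.out) (fun _ _ => mem_univ _) _ ?_
  intro F _
  by_cases hne : (A.filter fun σ => (fun c : Quotient (stoid H) => σ c.out) = F).Nonempty
  · obtain ⟨σ₀, hσ₀⟩ := hne
    rw [mem_filter, mem_filter] at hσ₀
    refine card_le_card_of_injOn (fun σ => σ₀⁻¹ * σ) ?_ (fun σ _ τ _ h => mul_left_cancel h)
    intro σ hσ
    rw [mem_coe, mem_filter, mem_filter] at hσ
    rw [mem_coe, mem_filter]
    refine ⟨mem_univ _, ?_⟩
    have hmem : σ₀⁻¹ * σ ∈ H := H.mul_mem (H.inv_mem hσ₀.1.2) hσ.1.2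
    have hfix : ∀ c : Quotient (stoid H), (σ₀⁻¹ * σ) c.out = c.out := fun c => by
      have h1 : σ c.out = σ₀ c.out := congrFun (hσ.2.trans hσ₀.2.symm) c
      rw [Perm.mul_apply, h1, pia]
    funext i
    rw [Function.comp_apply, cls_eq]
    have h2 : Rel H i (cls H i).out := by
      rw [← cls_eq]
      unfold cls
      rw [Quotient.out_eq]
    have h3 := h2.map hmem
    rw [hfix] at h3
    exact h3.trans h2.symm
  · rw [not_nonempty_iff_eq_empty] at hne
    rw [hne, card_empty]
    exact Nat.zero_le _

theorem factorial_le : (Fintype.card P)! ≤ H.index *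
    (Fintype.card P ^ Fintype.card (Quotient (stoid H)) *
      ∏ c : Quotient (stoid H), (Fintype.card {i // cls H i = c})!) := by
  have h1 := H.card_mul_index
  rw [Nat.card_eq_fintype_card (α := Perm P), Fintype.card_perm] at h1
  rw [← h1, mul_comm]
  exact Nat.mul_le_mul le_rfl (card_le H)

end Pool.Agent.T9h49.SD
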