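import Mathlib

/-!
# Three-cycles in a permutation group
-/

set_option autoImplicit false
set_option linter.unusedSectionVars false
set_option linter.unusedVariables false

namespace Pool.Agent.T9h49.SD

open Equiv Equiv.Perm

variable {P : Type*} [DecidableEq P]

/-- the three-cycle `i → j → k → i` (for distinct `i, j, k`) -/
def cyc (i j k : P) : Perm P := swap i j * swap j k

theorem pai {α : Type*} (g : Perm α) (x : α) : g (g⁻¹ x) = x := g.apply_symm_apply x

theorem pia {α : Type*} (g : Perm α) (x : α) : g⁻¹ (g x) = x := g.symm_apply_apply x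

theorem conj_cyc (f : Perm P) (i j k : P) : f * cyc i j k * f⁻¹ = cyc (f i) (f j) (f k) := by
  unfold cyc
  rw [swap_apply_apply, swap_apply_apply]
  group

theorem cyc_apply_left {i j k : P} (hij : i ≠ j) (hik : i ≠ k) : cyc i j k i = j := by
  unfold cyc
  rw [Perm.mul_apply, swap_apply_of_ne_of_ne hij hik, swap_apply_left]

theorem cyc_apply_mid {i j k : P} (hik : i ≠ k) (hjk : j ≠ k) : cyc i j k j = k := by
  unfold cyc
  rw [Perm.mul_apply, swap_apply_left, swap_apply_of_ne_of_ne hik.symm hjk.symm]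

theorem cyc_apply_right (i j k : P) : cyc i j k k = i := by
  unfold cyc
  rw [Perm.mul_apply, swap_apply_right, swap_apply_right]

theorem cyc_apply_of_ne {i j k x : P} (hi : x ≠ i) (hj : x ≠ j) (hk : x ≠ k) :
    cyc i j k x = x := by
  unfold cyc
  rw [Perm.mul_apply, swap_apply_of_ne_of_ne hj hk, swap_apply_of_ne_of_ne hi hj]

theorem cyc_rot {i j k : P} (hij : i ≠ j) (hik : i ≠ k) (hjk : j ≠ k) :
    cyc i j k = cyc j k i := by
  ext x
  by_cases hi : x = i
  · subst hi
    rw [cyc_apply_left hij hik, cyc_apply_right]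
  by_cases hj : x = j
  · subst hj
    rw [cyc_apply_mid hik hjk, cyc_apply_left hjk hij.symm]
  by_cases hk : x = k
  · subst hk
    rw [cyc_apply_right, cyc_apply_mid hij.symm hik.symm]
  rw [cyc_apply_of_ne hi hj hk, cyc_apply_of_ne hj hk hi]

theorem cyc_inv {i j k : P} (hij : i ≠ j) (hik : i ≠ k) (hjk : j ≠ k) :
    (cyc i j k)⁻¹ = cyc j i k := by
  rw [inv_eq_iff_mul_eq_one]
  ext x
  rw [Perm.mul_apply, Perm.one_apply]
  by_cases hi : x = i
  · subst hi
    rw [cyc_apply_mid hjk hik, cyc_apply_right]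
  by_cases hj : x = j
  · subst hj
    rw [cyc_apply_left hij.symm hjk, cyc_apply_left hij hik]
  by_cases hk : x = k
  · subst hk
    rw [cyc_apply_right, cyc_apply_mid hik hjk]
  rw [cyc_apply_of_ne hj hi hk, cyc_apply_of_ne hi hj hk]

/-- two permutations whose supports meet in one point only have a three-cycle as commutator -/
theorem comm_cyc {g h : Perm P} {δ : P} (hg : g δ ≠ δ) (hh : h δ ≠ δ)
    (hx : ∀ x, g x ≠ x → h x ≠ x → x = δ) :
    g * h * g⁻¹ * h⁻¹ = cyc δ (g δ) (h δ) := by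
  have hgi : ∀ x, g x = x → g⁻¹ x = x := fun x hx' => by
    rw [Perm.inv_eq_iff_eq]; exact hx'.symm
  have hhi : ∀ x, h x = x → h⁻¹ x = x := fun x hx' => by
    rw [Perm.inv_eq_iff_eq]; exact hx'.symm
  -- points moved by `g` other than `δ` are fixed by `h`
  have h1 : ∀ x, g x ≠ x → x ≠ δ → h x = x := fun x h1 h2 => by
    by_contra h3
    exact h2 (hx x h1 h3)
  have h2 : ∀ x, h x ≠ x → x ≠ δ → g x = x := fun x h1 h2 => by
    by_contra h3
    exact h2 (hx x h3 h1)
  have hgg : g (g δ) ≠ g δ := fun h => hg (g.injective h)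
  have hhh : h (h δ) ≠ h δ := fun h' => hh (h.injective h')
  have h3 : h (g δ) = g δ := h1 _ hgg hg
  have h4 : g (h δ) = h δ := h2 _ hhh hh
  have hne : g δ ≠ h δ := fun h' => hhh (by rw [← h']; exact h3)
  ext x
  simp only [Perm.mul_apply]
  by_cases hxδ : x = δ
  · subst hxδ
    rw [cyc_apply_left hg.symm hh.symm]
    have ha : h (h⁻¹ x) ≠ h⁻¹ x := by
      rw [pai]
      intro h'
      apply hh
      nth_rw 1 [h']
      rw [pai]
    have hb : h⁻¹ x ≠ x := by
      intro h'
      apply hh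
      nth_rw 1 [← h']
      rw [pai]
    rw [hgi _ (h2 _ ha hb), pai]
  by_cases hxg : x = g δ
  · subst hxg
    rw [cyc_apply_mid hh.symm hne, hhi _ h3, pia, h4]
  by_cases hxh : x = h δ
  · subst hxh
    rw [cyc_apply_right, pia]
    have ha : g (g⁻¹ δ) ≠ g⁻¹ δ := by
      rw [pai]
      intro h'
      apply hg
      nth_rw 1 [h']
      rw [pai]
    have hb : g⁻¹ δ ≠ δ := by
      intro h'
      apply hg
      nth_rw 1 [← h']
      rw [pai]
    rw [h1 _ ha hb, pai]
  rw [cyc_apply_of_ne hxδ hxg hxh]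
  by_cases hhx : h x = x
  · rw [hhi _ hhx]
    by_cases hgx : g x = x
    · rw [hgi _ hgx, hhx, hgx]
    · have ha : g⁻¹ x ≠ δ := fun h' => hxg (by rw [← h', pai])
      have hb : g (g⁻¹ x) ≠ g⁻¹ x := by
        rw [pai]
        intro h'
        apply hgx
        nth_rw 1 [h']
        rw [pai]
      rw [h1 _ hb ha, pai]
  · have ha : h⁻¹ x ≠ δ := fun h' => hxh (by rw [← h', pai])
    have hb : h (h⁻¹ x) ≠ h⁻¹ x := by
      rw [pai]
      intro h'
      apply hhx
      nth_rw 1 [h']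
      rw [pai]
    rw [hgi _ (h2 _ hb ha), pai, h2 x hhx hxδ]

/-- `i` and `j` are equal or lie in a common three-cycle of `H`. -/
def Rel (H : Subgroup (Perm P)) (i j : P) : Prop :=
  i = j ∨ ∃ k, i ≠ j ∧ i ≠ k ∧ j ≠ k ∧ cyc i j k ∈ H

variable {H : Subgroup (Perm P)}

theorem conj_mem {g f : Perm P} (hg : g ∈ H) (hf : f ∈ H) : f * g * f⁻¹ ∈ H :=
  H.mul_mem (H.mul_mem hf hg) (H.inv_mem hf)

theorem conj_mem' {i j k : P} {f : Perm P} (hg : cyc i j k ∈ H) (hf : f ∈ H) :
    cyc (f i) (f j) (f k) ∈ H := by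
  rw [← conj_cyc]
  exact conj_mem hg hf

theorem full_aux {i j k l : P} (hij : i ≠ j) (hik : i ≠ k) (hjk : j ≠ k) (hil : i ≠ l)
    (hjl : j ≠ l) (hkl : k ≠ l) (h1 : cyc i j k ∈ H) (h2 : cyc i l k ∈ H) : cyc i j l ∈ H := by
  have h3 := conj_mem' h2 h1
  rw [cyc_apply_left hij hik, cyc_apply_of_ne hil.symm hjl.symm hkl.symm, cyc_apply_right] at h3
  rwa [← cyc_rot hij hil hjl] at h3

theorem Rel.full {i j l : P} (h1 : Rel H i j) (h2 : Rel H j l) (hij : i ≠ j) (hil : i ≠ l)
    (hjl : j ≠ l) : cyc i j l ∈ H := by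
  obtain h1 | ⟨k, -, hik, hjk, h1⟩ := h1
  · exact absurd h1 hij
  obtain h2 | ⟨q, -, hjq, hlq, h2⟩ := h2
  · exact absurd h2 hjl
  by_cases hkl : k = l
  · rwa [← hkl]
  by_cases hqi : q = i
  · rw [hqi, ← cyc_rot hij hil hjl] at h2
    exact h2
  by_cases hqk : q = k
  · rw [hqk] at h2
    have h3 := conj_mem' h2 (H.inv_mem h1)
    rw [cyc_inv hij hik hjk, cyc_apply_left hij.symm hjk,
      cyc_apply_of_ne hjl.symm hil.symm (fun h => hkl h.symm), cyc_apply_right] at h3
    have h4 := H.inv_mem h3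
    rw [cyc_inv hil hij hjl.symm, cyc_rot hil.symm hjl.symm hij] at h4
    exact h4
  have h3 := conj_mem' h1 h2
  rw [cyc_apply_of_ne hij hil (fun h => hqi h.symm), cyc_apply_left hjl hjq,
    cyc_apply_of_ne hjk.symm hkl (fun h => hqk h.symm)] at h3
  exact full_aux hij hik hjk hil hjl hkl h1 h3

theorem Rel.refl (i : P) : Rel H i i := Or.inl rfl

theorem Rel.symm {i j : P} (h : Rel H i j) : Rel H j i := by
  obtain h | ⟨k, hij, hik, hjk, h⟩ := h
  · exact Or.inl h.symm
  · right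
    refine ⟨k, hij.symm, hjk, hik, ?_⟩
    rw [← cyc_inv hij hik hjk]
    exact H.inv_mem h

theorem Rel.trans {i j l : P} (h1 : Rel H i j) (h2 : Rel H j l) : Rel H i l := by
  by_cases hij : i = j
  · rwa [hij]
  by_cases hjl : j = l
  · rwa [← hjl]
  by_cases hil : i = l
  · exact Or.inl hil
  right
  refine ⟨j, hil, hij, fun h => hjl h.symm, ?_⟩
  have h3 := H.inv_mem (h1.full h2 hij hil hjl)
  rw [cyc_inv hij hil hjl, cyc_rot (Ne.symm hij) hjl hil] at h3
  exact h3

/-- three distinct points of a class form a three-cycle of `H` -/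
theorem Rel.cyc_mem {i j k : P} (h1 : Rel H i j) (h2 : Rel H i k) (hij : i ≠ j) (hik : i ≠ k)
    (hjk : j ≠ k) : cyc i j k ∈ H :=
  h1.full (h1.symm.trans h2) hij hik hjk

theorem Rel.map {i j : P} {f : Perm P} (hf : f ∈ H) (h : Rel H i j) : Rel H (f i) (f j) := by
  obtain h | ⟨k, hij, hik, hjk, h⟩ := h
  · exact Or.inl (by rw [h])
  · right
    exact ⟨f k, fun h' => hij (f.injective h'), fun h' => hik (f.injective h'),
      fun h' => hjk (f.injective h'), conj_mem' h hf⟩

/-- the setoid of the classes -/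
def stoid (H : Subgroup (Perm P)) : Setoid P where
  r := Rel H
  iseqv := ⟨Rel.refl, Rel.symm, Rel.trans⟩

end Pool.Agent.T9h49.SD
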